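import Pool.Agent.Helper38.Weiss.Api
import Pool.Agent.Helper10.Weiss.U6

/-! MP_6b0aee_an, packet W-K (core (ii)). -/

open Set Filter Topology MeasureTheory Pool.Agent.Helper38.Weiss

namespace Pool.Agent.Helper77.Weiss

/-- number of bad times of a typical sequence -/
theorem bad_count {X : Type*} {n : ℕ} (P : X → Fin n) (L T : ℕ) (hL : 0 < L)
    (q : (Fin L → Fin n) → ℝ) (hq1 : ∑ w, q w = 1) (A : Finset ℕ) (hA : Packing L T A)
    (ξ : ℕ → X) (c : ℝ) (hN : Near P L q A ξ T c) (bad : Fin n → Prop) [DecidablePred bad]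
    (ε : ℝ) (hbad : ∑ w, q w * ((Finset.univ.filter (fun s => bad (w s))).card : ℝ) ≤ L * ε) :
    (((Finset.range T).filter (fun t => bad (P (ξ t)))).card : ℝ) ≤ ε * T + 2 * c := by
  classical
  set U : Finset ℕ := A.biUnion (fun a => Finset.Ico a (a + L)) with hU
  have hUT : U ⊆ Finset.range T := by
    intro t ht
    obtain ⟨a, ha, hta⟩ := Finset.mem_biUnion.1 ht
    have h1 := Finset.mem_Ico.1 hta
    have h2 := hA.1 a ha
    exact Finset.mem_range.2 (by omega)
  have hdisj : ∀ a ∈ A, ∀ a' ∈ A, a ≠ a' →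
      Disjoint (Finset.Ico a (a + L)) (Finset.Ico a' (a' + L)) := by
    intro a ha a' ha' hne
    rw [Finset.disjoint_left]
    intro t ht ht'
    have h1 := Finset.mem_Ico.1 ht
    have h2 := Finset.mem_Ico.1 ht'
    rcases lt_or_gt_of_ne hne with h | h
    · have := hA.2 a ha a' ha' h
      omega
    · have := hA.2 a' ha' a ha h
      omega
  have hUcard : U.card = A.card * L := by
    rw [hU, Finset.card_biUnion hdisj]
    simp
  have hAcard : A.card = ∑ w : Fin L → Fin n, cnt P L A ξ w := by
    unfold cnt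
    exact Finset.card_eq_sum_card_fiberwise (f := fun a => word P L ξ a) (t := Finset.univ)
      (fun x _ => Finset.mem_coe.2 (Finset.mem_univ _))
  -- uncovered times
  have hunc : ((Finset.range T \ U).card : ℝ) ≤ c := by
    have h1 : (Finset.range T \ U).card = T - A.card * L := by
      rw [Finset.card_sdiff_of_subset hUT, Finset.card_range, hUcard]
    have h2 : A.card * L ≤ T := by
      rw [← hUcard, ← Finset.card_range T]
      exact Finset.card_le_card hUT
    have h3 : ((Finset.range T \ U).card : ℝ) = T - A.card * L := by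
      rw [h1, Nat.cast_sub h2]
      push_cast
      ring
    have h4 : (T : ℝ) - A.card * L = ∑ w : Fin L → Fin n, (q w * T - L * cnt P L A ξ w) := by
      rw [Finset.sum_sub_distrib, ← Finset.sum_mul, hq1, ← Finset.mul_sum, hAcard]
      push_cast
      ring
    rw [h3, h4]
    refine le_trans (Finset.sum_le_sum (fun w _ => ?_)) hN
    rw [abs_sub_comm]
    exact le_abs_self _
  -- covered bad times
  set Bw : (Fin L → Fin n) → ℕ := fun w => (Finset.univ.filter (fun s => bad (w s))).card with hBw
  have hBL : ∀ w, (Bw w : ℝ) ≤ L := by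
    intro w
    have : Bw w ≤ L := (Finset.card_filter_le _ _).trans (by simp)
    exact_mod_cast this
  have hcov : (((U).filter (fun t => bad (P (ξ t)))).card : ℝ) ≤
      ∑ w : Fin L → Fin n, (cnt P L A ξ w : ℝ) * Bw w := by
    have h1 : (U.filter (fun t => bad (P (ξ t)))).card ≤
        ∑ a ∈ A, ((Finset.Ico a (a + L)).filter (fun t => bad (P (ξ t)))).card := by
      rw [hU, Finset.filter_biUnion]
      exact Finset.card_biUnion_le
    have h2 : ∀ a ∈ A, ((Finset.Ico a (a + L)).filter (fun t => bad (P (ξ t)))).card ≤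
        Bw (word P L ξ a) := by
      intro a _
      have h3 : (Finset.Ico a (a + L)).filter (fun t => bad (P (ξ t))) ⊆
          (Finset.univ.filter (fun s : Fin L => bad (word P L ξ a s))).image
            (fun s : Fin L => a + (s : ℕ)) := by
        intro t ht
        rw [Finset.mem_filter, Finset.mem_Ico] at ht
        rw [Finset.mem_image]
        refine ⟨⟨t - a, by omega⟩, ?_, ?_⟩
        · rw [Finset.mem_filter]
          refine ⟨Finset.mem_univ _, ?_⟩
          unfold word
          have : a + (t - a) = t := by omega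
          simp only [this]
          exact ht.2
        · simp only
          omega
      exact (Finset.card_le_card h3).trans Finset.card_image_le
    have h4 : ∑ a ∈ A, Bw (word P L ξ a) = ∑ w : Fin L → Fin n, cnt P L A ξ w * Bw w := by
      rw [← Finset.sum_fiberwise_of_maps_to (s := A) (t := Finset.univ)
        (g := fun a => word P L ξ a) (fun a _ => Finset.mem_univ _)]
      refine Finset.sum_congr rfl (fun w _ => ?_)
      unfold cnt
      rw [← smul_eq_mul, ← Finset.sum_const]
      refine Finset.sum_congr rfl (fun a ha => ?_)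
      rw [(Finset.mem_filter.1 ha).2]
    have h5 := (h1.trans (Finset.sum_le_sum h2)).trans h4.le
    exact_mod_cast h5
  have hL' : (0 : ℝ) < L := by exact_mod_cast hL
  have hT' : (0 : ℝ) ≤ T := by positivity
  have hmain : (L : ℝ) * ∑ w : Fin L → Fin n, (cnt P L A ξ w : ℝ) * Bw w ≤
      L * (c + ε * T) := by
    have h1 : (L : ℝ) * ∑ w : Fin L → Fin n, (cnt P L A ξ w : ℝ) * Bw w =
        ∑ w : Fin L → Fin n, (L * cnt P L A ξ w - q w * T) * Bw w +
          T * ∑ w : Fin L → Fin n, q w * Bw w := by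
      rw [Finset.mul_sum, Finset.mul_sum, ← Finset.sum_add_distrib]
      refine Finset.sum_congr rfl (fun w _ => ?_)
      ring
    have h2 : ∑ w : Fin L → Fin n, (L * cnt P L A ξ w - q w * T) * Bw w ≤ c * L := by
      refine le_trans (Finset.sum_le_sum (fun w _ => ?_)) ((Finset.sum_mul _ _ _).symm.le.trans
        (mul_le_mul_of_nonneg_right hN hL'.le))
      calc ((L : ℝ) * cnt P L A ξ w - q w * T) * Bw w
          ≤ |(L : ℝ) * cnt P L A ξ w - q w * T| * Bw w :=
            mul_le_mul_of_nonneg_right (le_abs_self _) (by positivity)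
        _ ≤ |(L : ℝ) * cnt P L A ξ w - q w * T| * L :=
            mul_le_mul_of_nonneg_left (hBL w) (abs_nonneg _)
    have h3 : (T : ℝ) * ∑ w : Fin L → Fin n, q w * Bw w ≤ T * (L * ε) :=
      mul_le_mul_of_nonneg_left hbad hT'
    rw [h1]
    linarith
  have hmain' := le_of_mul_le_mul_left hmain hL'
  have hsplit : ((Finset.range T).filter (fun t => bad (P (ξ t)))).card ≤
      (Finset.range T \ U).card + (U.filter (fun t => bad (P (ξ t)))).card := by
    refine le_trans (Finset.card_le_card ?_) (Finset.card_union_le _ _)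
    intro t ht
    rw [Finset.mem_filter] at ht
    rw [Finset.mem_union, Finset.mem_sdiff, Finset.mem_filter]
    by_cases h : t ∈ U
    · exact Or.inr ⟨h, ht.2⟩
    · exact Or.inl ⟨ht.1, h⟩
  have hsplit' : (((Finset.range T).filter (fun t => bad (P (ξ t)))).card : ℝ) ≤
      ((Finset.range T \ U).card : ℝ) + ((U.filter (fun t => bad (P (ξ t)))).card : ℝ) := by
    exact_mod_cast hsplit
  linarith

/-- the word map -/
theorem law_sum {X : Type*} [MeasurableSpace X] (ν : Measure X) [IsProbabilityMeasure ν]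
    (F : X → X) (hF : Measurable F) {n : ℕ} (P : X → Fin n) (hP : Measurable P) (L : ℕ)
    (S : Finset (Fin L → Fin n)) :
    ∑ w ∈ S, law ν F P L w = (ν {x | (fun s : Fin L => P (F^[s] x)) ∈ S}).toReal := by
  have hW : Measurable (fun x => fun s : Fin L => P (F^[s] x)) :=
    measurable_pi_lambda _ (fun s => hP.comp (hF.iterate s))
  have h := sum_measure_preimage_singleton (μ := ν) S
    (f := fun x => fun s : Fin L => P (F^[s] x)) (fun y _ => hW (measurableSet_singleton y))
  have h2 : {x | (fun s : Fin L => P (F^[s] x)) ∈ S} =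
      (fun x => fun s : Fin L => P (F^[s] x)) ⁻¹' (S : Set (Fin L → Fin n)) := rfl
  rw [h2, ← h, ENNReal.toReal_sum (fun y _ => measure_ne_top ν _)]
  refine Finset.sum_congr rfl (fun w _ => ?_)
  unfold law
  congr 2
  ext x
  simp [funext_iff]

theorem law_sum_one {X : Type*} [MeasurableSpace X] (ν : Measure X) [IsProbabilityMeasure ν]
    (F : X → X) (hF : Measurable F) {n : ℕ} (P : X → Fin n) (hP : Measurable P) (L : ℕ) :
    ∑ w, law ν F P L w = 1 := by
  rw [law_sum ν F hF P hP L Finset.univ]
  simp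

theorem law_bad {X : Type*} [MeasurableSpace X] (ν : Measure X) [IsProbabilityMeasure ν]
    (F : X → X) (hF : MeasurePreserving F ν ν) {n : ℕ} (P : X → Fin n) (hP : Measurable P)
    (L : ℕ) (bad : Fin n → Prop) [DecidablePred bad] :
    ∑ w, law ν F P L w * ((Finset.univ.filter (fun s => bad (w s))).card : ℝ) =
      L * (ν {x | bad (P x)}).toReal := by
  classical
  have h1 : ∀ w : Fin L → Fin n, law ν F P L w *
      ((Finset.univ.filter (fun s => bad (w s))).card : ℝ) =
      ∑ s : Fin L, (if bad (w s) then law ν F P L w else 0) := by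
    intro w
    rw [Finset.card_filter]
    push_cast
    rw [Finset.mul_sum]
    refine Finset.sum_congr rfl (fun s _ => ?_)
    split_ifs <;> simp
  rw [Finset.sum_congr rfl (fun w _ => h1 w), Finset.sum_comm]
  have h2 : ∀ s : Fin L, ∑ w : Fin L → Fin n, (if bad (w s) then law ν F P L w else 0) =
      (ν {x | bad (P x)}).toReal := by
    intro s
    rw [← Finset.sum_filter, law_sum ν F hF.measurable P hP L]
    have h3 : {x | (fun s : Fin L => P (F^[s] x)) ∈ Finset.univ.filter
        (fun w : Fin L → Fin n => bad (w s))} = (F^[s]) ⁻¹' {x | bad (P x)} := by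
      ext x
      simp
    rw [h3]
    have hm : MeasurableSet {x | bad (P x)} := hP (MeasurableSet.of_discrete (s := {i | bad i}))
    rw [(hF.iterate s).measure_preimage hm.nullMeasurableSet]
  rw [Finset.sum_congr rfl (fun s _ => h2 s)]
  simp

theorem core_ii {X : Type*} [MeasurableSpace X] (ν : Measure X) [IsProbabilityMeasure ν]
    (F : X → X) (hF : MeasurePreserving F ν ν) (p : ℝ) (hp : 0 < p) (C : ℕ) :
    ∃ ε₀ > 0, ∀ (n : ℕ) (P : X → Fin n), Measurable P → ∀ L > 0, ∀ (δ : ℝ), 0 ≤ δ →
      ∀ (κ : X → Fin C) (S' : Set (X × X)) (O : Set X), (∀ x y, κ x = κ y → (x, y) ∉ S') →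
        (ν {x | ¬ P ⁻¹' {P x} ⊆ O}).toReal + 2 * δ ≤ ε₀ → ∀ T : ℕ,
        Leq (Typ P L (law ν F P L) δ 0 T) (pw S' T) (Typ P L (law ν F P L) δ 0 T)
          (pw (S' ∩ O ×ˢ O) T) (Real.exp (p / 2 * T)) := by
  classical
  obtain ⟨t, ht0, ht1, htC⟩ : ∃ t : ℝ, 0 < t ∧ t ≤ 1 ∧ t * C ≤ p / 4 := by
    refine ⟨min 1 (p / (4 * (C + 1))), by positivity, min_le_left _ _, ?_⟩
    have h1 : min 1 (p / (4 * ((C : ℝ) + 1))) * C ≤ p / (4 * ((C : ℝ) + 1)) * C :=
      mul_le_mul_of_nonneg_right (min_le_right _ _) (by positivity)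
    refine h1.trans ?_
    rw [div_mul_eq_mul_div, div_le_div_iff₀ (by positivity) (by norm_num)]
    have hC : (0 : ℝ) ≤ C := by positivity
    nlinarith
  have hlog : Real.log t ≤ 0 := Real.log_nonpos ht0.le ht1
  obtain ⟨ε₀, hε₀, hε₁⟩ : ∃ ε₀ : ℝ, 0 < ε₀ ∧ ε₀ * (-Real.log t) ≤ p / 4 := by
    refine ⟨p / (4 * (-Real.log t + 1)), ?_, ?_⟩
    · have : 0 < -Real.log t + 1 := by linarith
      positivity
    · have h1 : 0 < -Real.log t + 1 := by linarith
      rw [div_mul_eq_mul_div, div_le_div_iff₀ (by positivity) (by norm_num)]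
      nlinarith
  refine ⟨ε₀, hε₀, ?_⟩
  intro n P hP L hL δ hδ κ S' O hκ hsmall T
  set k : ℕ := ⌊ε₀ * T⌋₊ with hk
  set I : Finset (Fin T → Option (Fin C)) := Finset.univ.filter (fun e : Fin T → Option (Fin C) =>
      (Finset.univ.filter (fun i => e i ≠ none)).card ≤ k) with hI
  set lab : (ℕ → X) → (Fin T → Option (Fin C)) := fun ξ i =>
    if ξ i ∈ O then none else some (κ (ξ i)) with hlab
  have h := Leq.classes' I (U := Typ P L (law ν F P L) δ 0 T) (r := pw S' T)
    (V := Typ P L (law ν F P L) δ 0 T) (s := pw (S' ∩ O ×ˢ O) T) lab ?_ (fun ξ => ξ)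
    (fun ξ hξ => hξ) ?_ ?_
  · refine h.mono ?_
    have h1 := Pool.Agent.Helper10.Weiss.card_sparse_le (ι := Fin T) (β := Fin C) k ht0 ht1
    rw [Fintype.card_fin, Fintype.card_fin] at h1
    have h2 : (1 + t * (C : ℝ)) ^ T ≤ Real.exp (p / 4 * T) := by
      have h3 : 1 + t * (C : ℝ) ≤ Real.exp (p / 4) := by
        have := Real.add_one_le_exp (p / 4)
        linarith
      refine (pow_le_pow_left₀ (by positivity) h3 T).trans (le_of_eq ?_)
      rw [← Real.exp_nat_mul]
      ring_nf
    have h4 : Real.exp (-(p / 4 * T)) ≤ t ^ k := by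
      have h5 : t ^ k = Real.exp (k * Real.log t) := by
        rw [Real.exp_nat_mul, Real.exp_log ht0]
      rw [h5]
      refine Real.exp_le_exp.2 ?_
      have h6 : (k : ℝ) ≤ ε₀ * T := Nat.floor_le (by positivity)
      have h7 : ε₀ * T * Real.log t ≤ k * Real.log t :=
        mul_le_mul_of_nonpos_right h6 hlog
      have h8 : (ε₀ * (-Real.log t)) * T ≤ p / 4 * T :=
        mul_le_mul_of_nonneg_right hε₁ (by positivity)
      linarith
    have h9 : (I.card : ℝ) * Real.exp (-(p / 4 * T)) ≤ Real.exp (p / 4 * T) :=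
      (mul_le_mul_of_nonneg_left h4 (by positivity)).trans (h1.trans h2)
    have h10 : Real.exp (p / 2 * T) * Real.exp (-(p / 4 * T)) = Real.exp (p / 4 * T) := by
      rw [← Real.exp_add]
      ring_nf
    rw [← h10] at h9
    exact le_of_mul_le_mul_right h9 (Real.exp_pos _)
  · -- the labels are sparse
    intro ξ hξ
    obtain ⟨A, hA, hN⟩ := hξ
    rw [hI, Finset.mem_filter]
    refine ⟨Finset.mem_univ _, ?_⟩
    rw [hk, Nat.le_floor_iff (by positivity)]
    set bad : Fin n → Prop := fun i => ¬ P ⁻¹' {i} ⊆ O with hbad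
    have h1 := bad_count P L T hL (law ν F P L) (law_sum_one ν F hF.measurable P hP L) A hA ξ
      (δ * T + 0) hN bad (ν {x | bad (P x)}).toReal (law_bad ν F hF P hP L bad).le
    have h2 : (Finset.univ.filter (fun i : Fin T => lab ξ i ≠ none)).card ≤
        ((Finset.range T).filter (fun t => bad (P (ξ t)))).card := by
      refine Finset.card_le_card_of_injOn (fun i : Fin T => (i : ℕ)) ?_ ?_
      · intro i hi
        rw [Finset.mem_coe, Finset.mem_filter] at hi
        rw [Finset.mem_coe, Finset.mem_filter, Finset.mem_range]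
        refine ⟨i.2, ?_⟩
        intro hsub
        apply hi.2
        rw [hlab]
        simp only
        rw [if_pos (hsub rfl)]
      · intro i _ j _ hij
        exact Fin.ext hij
    have h3 : ((Finset.univ.filter (fun i : Fin T => lab ξ i ≠ none)).card : ℝ) ≤
        (((Finset.range T).filter (fun t => bad (P (ξ t)))).card : ℝ) := by exact_mod_cast h2
    have h4 : ((ν {x | bad (P x)}).toReal + 2 * δ) * T ≤ ε₀ * T :=
      mul_le_mul_of_nonneg_right hsmall (by positivity)
    linarith
  · -- equal labels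
    rintro ξ - ζ - hlabel ⟨t, ht, hS⟩
    refine ⟨t, ht, hS, ?_⟩
    have h1 := congrFun hlabel ⟨t, ht⟩
    rw [hlab] at h1
    simp only at h1
    by_cases hξ : ξ t ∈ O
    · rw [if_pos hξ] at h1
      by_cases hζ : ζ t ∈ O
      · exact ⟨hξ, hζ⟩
      · rw [if_neg hζ] at h1
        exact absurd h1 (by simp)
    · rw [if_neg hξ] at h1
      by_cases hζ : ζ t ∈ O
      · rw [if_pos hζ] at h1
        exact absurd h1 (by simp)
      · rw [if_neg hζ] at h1
        exact absurd hS (hκ _ _ (Option.some.inj h1))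
  · rintro ξ - ⟨t, -, hS, -⟩
    exact hκ _ _ rfl hS

end Pool.Agent.Helper77.Weiss
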